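import Mathlib

/-!
# MP_a03d73_co : odd-covers of Eulerian binary matroids by circuits versus arboricity

A binary matroid is a finite set `M` of nonzero vectors of `F_2^n`.  We show that the inequality
`c_2(M) ≤ a(M)` fails: there is an Eulerian binary matroid `M ⊆ F_2^8` with `a(M) = 3` and
`c_2(M) = 4`.  (When `M` does not span `F_2^n` the inequality is true: see `NonSpanning`.)

The proof is a parity argument.  `M` is a direct sum of two copies of `F_2^4` minus a plane, it has
`24 = 3 * 8` elements and splits into three bases.  A circuit has at most `9` elements and a circuit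
inside `M` has at most `5`, so a circuit meets `M` in at most `8` elements, and if it meets `M` in
`8` elements then it has exactly one further element.  Three circuits covering the `24` elements of
`M` would therefore have three further elements in total, which cannot cancel as `3` is odd.
-/

namespace Pool.Agent.Results.MP_a03d73_co.Main

open Finset
open scoped symmDiff

/-- The vector space `F_2^n`. -/
abbrev V (n : ℕ) := Fin n → ZMod 2

/-- `M` is an Eulerian binary matroid: a finite set of nonzero vectors of `F_2^n` with sum `0`. -/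
def IsEulerian {n : ℕ} (M : Finset (V n)) : Prop :=
  (0 : V n) ∉ M ∧ ∑ x ∈ M, x = 0

/-- A circuit: an inclusion-minimal non-empty Eulerian set of nonzero vectors. -/
def IsCircuit {n : ℕ} (C : Finset (V n)) : Prop :=
  C.Nonempty ∧ IsEulerian C ∧ ∀ D : Finset (V n), D ⊆ C → D.Nonempty → IsEulerian D → D = C

/-- The family (list) `L` of circuits is a circuit odd-cover of `M`: the symmetric difference of
the members of `L` is `M`. -/
def IsCircuitOddCover {n : ℕ} (M : Finset (V n)) (L : List (Finset (V n))) : Prop :=
  (∀ C ∈ L, IsCircuit C) ∧ L.foldr (fun A B => A ∆ B) ∅ = M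

/-- `c_2(M)`: the least number of circuits in a circuit odd-cover of `M`. -/
noncomputable def c2 {n : ℕ} (M : Finset (V n)) : ℕ :=
  sInf {t : ℕ | ∃ L : List (Finset (V n)), L.length = t ∧ IsCircuitOddCover M L}

/-- `a(M)`: the least `t` such that `M` is the union of `t` linearly independent sets. -/
noncomputable def arboricity {n : ℕ} (M : Finset (V n)) : ℕ :=
  sInf {t : ℕ | ∃ I : Fin t → Finset (V n),
    (∀ j, LinearIndependent (ZMod 2) (fun x : (I j : Set (V n)) => (x : V n))) ∧
      Finset.univ.biUnion I = M}

/-! ### Linear independence over `F_2` -/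

variable {n : ℕ}

/-- A finite set of vectors over `F_2` is linearly independent iff no nonempty subset sums to
zero. -/
theorem indep_iff (I : Finset (V n)) :
    LinearIndependent (ZMod 2) (fun x : (I : Set (V n)) => (x : V n)) ↔
      ∀ D : Finset (V n), D ⊆ I → ∑ x ∈ D, x = 0 → D = ∅ := by
  have h1 : LinearIndependent (ZMod 2) (fun x : (I : Set (V n)) => (x : V n)) ↔
      LinearIndepOn (ZMod 2) id (I : Set (V n)) := Iff.rfl
  rw [h1, linearIndepOn_finset_iff]
  constructor
  · intro h D hD hs
    by_contra hne
    obtain ⟨y, hy⟩ := Finset.nonempty_iff_ne_empty.mpr hne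
    have := h (fun x => if x ∈ D then 1 else 0) (by
      simp only [id, ite_smul, one_smul, zero_smul]
      rw [← Finset.sum_filter]
      have : I.filter (fun x => x ∈ D) = D := by
        ext x; simp only [Finset.mem_filter]; exact ⟨fun h => h.2, fun h => ⟨hD h, h⟩⟩
      rw [this, hs]) y (hD hy)
    simp [hy] at this
  · intro h g hg x hx
    have hz : ∀ a : ZMod 2, a = 0 ∨ a = 1 := by decide
    have hs' : ∑ x ∈ I.filter (fun x => g x = 1), x = ∑ i ∈ I, g i • id i := by
      rw [Finset.sum_filter]
      refine Finset.sum_congr rfl fun y _ => ?_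
      rcases hz (g y) with h0 | h0 <;> simp [h0]
    have hs : ∑ x ∈ I.filter (fun x => g x = 1), x = 0 := hs'.trans hg
    have he := h _ (Finset.filter_subset _ _) hs
    rcases hz (g x) with h0 | h0
    · exact h0
    · have : x ∈ I.filter (fun x => g x = 1) := by simp [hx, h0]
      rw [he] at this
      simp at this

/-- A linearly independent finite subset of `F_2^n` has at most `n` elements. -/
theorem card_le_of_indep {I : Finset (V n)}
    (h : LinearIndependent (ZMod 2) (fun x : (I : Set (V n)) => (x : V n))) : I.card ≤ n := by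
  have := h.fintype_card_le_finrank
  simpa using this

theorem zero_notMem_of_indep {I : Finset (V n)}
    (h : LinearIndependent (ZMod 2) (fun x : (I : Set (V n)) => (x : V n))) : (0 : V n) ∉ I := by
  intro h0
  have := (indep_iff I).1 h {0} (by simpa using h0) (by simp)
  simp at this

theorem add_self (x : V n) : x + x = 0 := by
  funext i
  have : ∀ a : ZMod 2, a + a = 0 := by decide
  exact this _

/-- Every circuit of `F_2^n` has at most `n + 1` elements. -/
theorem IsCircuit.card_le {C : Finset (V n)} (h : IsCircuit C) : C.card ≤ n + 1 := by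
  obtain ⟨⟨y, hy⟩, hE, hmin⟩ := h
  have hi : LinearIndependent (ZMod 2) (fun x : ((C.erase y : Finset (V n)) : Set (V n)) => (x : V n)) := by
    rw [indep_iff]
    intro D hD hs
    by_contra hne
    have hne := Finset.nonempty_iff_ne_empty.mpr hne
    have hDC : D ⊆ C := hD.trans (Finset.erase_subset _ _)
    have := hmin D hDC hne ⟨fun h0 => hE.1 (hDC h0), hs⟩
    rw [this] at hD
    exact absurd (hD hy) (by simp)
  have := card_le_of_indep hi
  rw [Finset.card_erase_of_mem hy] at this
  omega

/-- If `A` is nonempty, linearly independent and `∑ A ∉ A`, then `A ∪ {∑ A}` is a circuit. -/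
theorem isCircuit_insert {A : Finset (V n)}
    (h : LinearIndependent (ZMod 2) (fun x : (A : Set (V n)) => (x : V n)))
    (hne : A.Nonempty) (hs : ∑ x ∈ A, x ∉ A) : IsCircuit (insert (∑ x ∈ A, x) A) := by
  have h' := (indep_iff A).1 h
  have hs0 : ∑ x ∈ A, x ≠ 0 := by
    intro h0
    exact hne.ne_empty (h' A subset_rfl h0)
  refine ⟨⟨_, Finset.mem_insert_self _ _⟩, ⟨?_, ?_⟩, ?_⟩
  · rw [Finset.mem_insert, not_or]
    exact ⟨hs0.symm, zero_notMem_of_indep h⟩
  · rw [Finset.sum_insert hs, add_self]
  · intro D hD hDne hDE
    by_cases hm : ∑ x ∈ A, x ∈ D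
    · -- then the complement in `A` of `D.erase s` sums to zero
      have hsub : D.erase (∑ x ∈ A, x) ⊆ A := by
        intro x hx
        rw [Finset.mem_erase] at hx
        rcases Finset.mem_insert.1 (hD hx.2) with h1 | h1
        · exact absurd h1 hx.1
        · exact h1
      have e1 : ∑ x ∈ D.erase (∑ x ∈ A, x), x + ∑ x ∈ A, x = 0 := by
        rw [Finset.sum_erase_add _ _ hm]; exact hDE.2
      have e2 : ∑ x ∈ D.erase (∑ x ∈ A, x), x = ∑ x ∈ A, x := by
        have := congrArg (· + ∑ x ∈ A, x) e1
        simpa [add_assoc, add_self] using this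
      have e3 : ∑ x ∈ A \ D.erase (∑ x ∈ A, x), x = 0 := by
        have := Finset.sum_sdiff (f := fun x : V n => x) hsub
        rw [e2] at this
        exact add_eq_right.1 this
      have e4 := h' _ Finset.sdiff_subset e3
      rw [Finset.sdiff_eq_empty_iff_subset] at e4
      apply Finset.Subset.antisymm hD
      intro x hx
      rcases Finset.mem_insert.1 hx with h1 | h1
      · rw [h1]; exact hm
      · exact Finset.mem_of_mem_erase (e4 h1)
    · exfalso
      have hsub : D ⊆ A := by
        intro x hx
        rcases Finset.mem_insert.1 (hD hx) with h1 | h1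
        · rw [h1] at hx; exact absurd hx hm
        · exact h1
      exact hDne.ne_empty (h' D hsub hDE.2)

/-- Two distinct nonzero vectors over `F_2` are linearly independent. -/
theorem indep_pair {x y : V n} (hx : x ≠ 0) (hy : y ≠ 0) (hxy : x ≠ y) :
    LinearIndependent (ZMod 2) (fun z : (({x, y} : Finset (V n)) : Set (V n)) => (z : V n)) := by
  rw [indep_iff]
  intro D hD hs
  have hsub : ∀ z ∈ D, z = x ∨ z = y := fun z hz => by simpa using hD hz
  by_cases h1 : x ∈ D <;> by_cases h2 : y ∈ D
  · have : D = {x, y} := by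
      ext z; simp only [Finset.mem_insert, Finset.mem_singleton]
      exact ⟨hsub z, fun h => by rcases h with rfl | rfl <;> assumption⟩
    rw [this, Finset.sum_pair hxy] at hs
    exfalso
    apply hxy
    have := congrArg (· + y) hs
    simpa [add_assoc, add_self] using this
  · have : D = {x} := by
      ext z; simp only [Finset.mem_singleton]
      exact ⟨fun h => (hsub z h).resolve_right (fun h' => h2 (h' ▸ h)), fun h => h ▸ h1⟩
    rw [this, Finset.sum_singleton] at hs
    exact absurd hs hx
  · have : D = {y} := by
      ext z; simp only [Finset.mem_singleton]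
      exact ⟨fun h => (hsub z h).resolve_left (fun h' => h1 (h' ▸ h)), fun h => h ▸ h2⟩
    rw [this, Finset.sum_singleton] at hs
    exact absurd hs hy
  · rw [Finset.eq_empty_iff_forall_notMem]
    intro z hz
    rcases hsub z hz with rfl | rfl
    · exact h1 hz
    · exact h2 hz

/-! ### Counting -/

theorem card_inter_foldr_le (M : Finset (V n)) (L : List (Finset (V n))) :
    ((L.foldr (fun A B => A ∆ B) ∅) ∩ M).card ≤ (L.map (fun C => (C ∩ M).card)).sum := by
  induction L with
  | nil => simp
  | cons C L ih =>
    simp only [List.foldr_cons, List.map_cons, List.sum_cons]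
    refine le_trans (Finset.card_le_card (t := (C ∩ M) ∪ ((L.foldr (fun A B => A ∆ B) ∅) ∩ M)) ?_) ?_
    · intro x hx
      simp only [Finset.mem_inter, Finset.mem_symmDiff, Finset.mem_union] at hx ⊢
      tauto
    · exact (Finset.card_union_le _ _).trans (by omega)

theorem card_symmDiff_mod (A B : Finset (V n)) : (A ∆ B).card % 2 = (A.card + B.card) % 2 := by
  have h1 : (A ∆ B).card = (A \ B).card + (B \ A).card := by
    rw [symmDiff_def, Finset.sup_eq_union, Finset.card_union_of_disjoint]
    exact disjoint_sdiff_sdiff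
  have h2 := Finset.card_sdiff_add_card_inter A B
  have h3 := Finset.card_sdiff_add_card_inter B A
  rw [Finset.inter_comm B A] at h3
  omega

theorem card_sdiff_foldr_mod (M : Finset (V n)) (L : List (Finset (V n))) :
    ((L.foldr (fun A B => A ∆ B) ∅) \ M).card % 2
      = (L.map (fun C => (C \ M).card)).sum % 2 := by
  induction L with
  | nil => simp
  | cons C L ih =>
    simp only [List.foldr_cons, List.map_cons, List.sum_cons]
    have : (C ∆ (L.foldr (fun A B => A ∆ B) ∅)) \ M
        = (C \ M) ∆ ((L.foldr (fun A B => A ∆ B) ∅) \ M) := by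
      ext x
      simp only [Finset.mem_sdiff, Finset.mem_symmDiff]
      tauto
    rw [this, card_symmDiff_mod]
    omega

/-- The key counting lemma: if `|M| = a n` with `a` odd and every circuit contained in `M` has
fewer than `n` elements, then every circuit odd-cover of `M` has more than `a` members. -/
theorem lt_length_of_isCircuitOddCover {M : Finset (V n)} {a : ℕ} (ha : Odd a) (hn : 0 < n)
    (hcard : M.card = a * n) (hC : ∀ C : Finset (V n), IsCircuit C → C ⊆ M → C.card < n)
    {L : List (Finset (V n))} (hL : IsCircuitOddCover M L) : a < L.length := by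
  by_contra hlt
  rw [not_lt] at hlt
  obtain ⟨hcirc, hfold⟩ := hL
  -- each circuit meets `M` in at most `n` elements, and has one element outside if equality
  have key : ∀ C ∈ L, (C ∩ M).card ≤ n ∧ ((C ∩ M).card = n → (C \ M).card = 1) := by
    intro C hCL
    have h1 := (hcirc C hCL).card_le
    have h2 := Finset.card_sdiff_add_card_inter C M
    by_cases hsub : C ⊆ M
    · have h3 := hC C (hcirc C hCL) hsub
      rw [Finset.inter_eq_left.mpr hsub]
      exact ⟨h3.le, fun h => absurd h h3.ne⟩
    · have h3 : 0 < (C \ M).card := by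
        rw [Finset.card_pos, Finset.sdiff_nonempty]
        exact hsub
      exact ⟨by omega, fun h => by omega⟩
  have hsum_le : ∀ L' : List (Finset (V n)), (∀ C ∈ L', (C ∩ M).card ≤ n) →
      (L'.map (fun C => (C ∩ M).card)).sum ≤ L'.length * n := by
    intro L' h
    induction L' with
    | nil => simp
    | cons C L' ih =>
      simp only [List.map_cons, List.sum_cons, List.length_cons]
      have h1 := h C (by simp)
      have h2 := ih (fun D hD => h D (by simp [hD]))
      rw [add_mul, one_mul]
      omega
  have hsum_eq : ∀ L' : List (Finset (V n)), (∀ C ∈ L', (C ∩ M).card ≤ n) →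
      (L'.map (fun C => (C ∩ M).card)).sum = L'.length * n →
      ∀ C ∈ L', (C ∩ M).card = n := by
    intro L' h
    induction L' with
    | nil => simp
    | cons C L' ih =>
      intro he
      simp only [List.map_cons, List.sum_cons, List.length_cons] at he
      have h1 := h C (by simp)
      have h2 := hsum_le L' (fun D hD => h D (by simp [hD]))
      rw [add_mul, one_mul] at he
      have h3 : (C ∩ M).card = n := by omega
      have h4 : (L'.map (fun C => (C ∩ M).card)).sum = L'.length * n := by omega
      intro D hD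
      rcases List.mem_cons.1 hD with h5 | h5
      · rw [h5]; exact h3
      · exact ih (fun D hD => h D (by simp [hD])) h4 D h5
  have hMle := card_inter_foldr_le M L
  rw [hfold, Finset.inter_self, hcard] at hMle
  have hle := hsum_le L (fun C hCL => (key C hCL).1)
  have hlen : L.length = a := by
    apply le_antisymm hlt
    have : a * n ≤ L.length * n := hMle.trans hle
    exact Nat.le_of_mul_le_mul_right this hn
  have heq : (L.map (fun C => (C ∩ M).card)).sum = L.length * n := by
    rw [hlen] at hle ⊢
    omega
  have hall := hsum_eq L (fun C hCL => (key C hCL).1) heq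
  have hone : ∀ L' : List (Finset (V n)), (∀ C ∈ L', (C \ M).card = 1) →
      (L'.map (fun C => (C \ M).card)).sum = L'.length := by
    intro L' h
    induction L' with
    | nil => simp
    | cons C L' ih =>
      simp only [List.map_cons, List.sum_cons, List.length_cons]
      rw [h C (by simp), ih (fun D hD => h D (by simp [hD]))]
      omega
  have h5 := hone L (fun C hCL => (key C hCL).2 (hall C hCL))
  have h6 := card_sdiff_foldr_mod M L
  rw [hfold, h5, hlen, sdiff_self] at h6
  simp only [Finset.bot_eq_empty, Finset.card_empty, Nat.zero_mod] at h6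
  obtain ⟨k, hk⟩ := ha
  omega

/-! ### The matroid -/

/-- The vector of `F_2^8` whose coordinates are the binary digits of `m`. -/
def vec (m : ℕ) : V 8 := fun i => if m.testBit i then 1 else 0

/-- The first basis. -/
def b1 : Fin 8 → V 8 := fun i => vec (![4, 5, 6, 8, 64, 80, 96, 128] i)
/-- The second basis. -/
def b2 : Fin 8 → V 8 := fun i => vec (![7, 9, 10, 12, 112, 144, 160, 192] i)
/-- The third basis. -/
def b3 : Fin 8 → V 8 := fun i => vec (![11, 13, 14, 15, 176, 208, 224, 240] i)

/-- The first basis. -/
def B1 : Finset (V 8) := Finset.univ.image b1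
/-- The second basis. -/
def B2 : Finset (V 8) := Finset.univ.image b2
/-- The third basis. -/
def B3 : Finset (V 8) := Finset.univ.image b3

/-- The matroid: the direct sum of two copies of `F_2^4` minus a two-dimensional subspace. -/
def M₀ : Finset (V 8) := B1 ∪ B2 ∪ B3

theorem indep_of_inv (b c : Fin 8 → V 8) (h : Matrix.of b * Matrix.of c = 1) :
    LinearIndependent (ZMod 2) b := by
  have hu : IsUnit (Matrix.of b) := IsUnit.of_mul_eq_one _ h
  exact Matrix.linearIndependent_rows_iff_isUnit.2 hu

theorem indep_image (b : Fin 8 → V 8) (h : LinearIndependent (ZMod 2) b) :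
    LinearIndependent (ZMod 2)
      (fun x : ((Finset.univ.image b : Finset (V 8)) : Set (V 8)) => (x : V 8)) := by
  have h1 := h.linearIndepOn_id
  have h2 : ((Finset.univ.image b : Finset (V 8)) : Set (V 8)) = Set.range b := by simp
  rw [h2]
  exact h1

theorem li_b1 : LinearIndependent (ZMod 2) b1 :=
  indep_of_inv b1 (fun i => vec (![3, 5, 1, 8, 48, 80, 16, 128] i)) (by decide +kernel)

theorem li_b2 : LinearIndependent (ZMod 2) b2 :=
  indep_of_inv b2 (fun i => vec (![13, 11, 7, 15, 208, 176, 112, 240] i)) (by decide +kernel)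

theorem li_b3 : LinearIndependent (ZMod 2) b3 :=
  indep_of_inv b3 (fun i => vec (![12, 10, 9, 7, 192, 160, 144, 112] i)) (by decide +kernel)

theorem indep_B1 : LinearIndependent (ZMod 2) (fun x : (B1 : Set (V 8)) => (x : V 8)) :=
  indep_image b1 li_b1

theorem indep_B2 : LinearIndependent (ZMod 2) (fun x : (B2 : Set (V 8)) => (x : V 8)) :=
  indep_image b2 li_b2

theorem indep_B3 : LinearIndependent (ZMod 2) (fun x : (B3 : Set (V 8)) => (x : V 8)) :=
  indep_image b3 li_b3

theorem card_M₀ : M₀.card = 3 * 8 := by decide +kernel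

theorem isEulerian_M₀ : IsEulerian M₀ := by
  refine ⟨by decide +kernel, by decide +kernel⟩

/-- Projection to the first four coordinates. -/
def π1 : V 8 →ₗ[ZMod 2] V 4 := LinearMap.funLeft (ZMod 2) (ZMod 2) (Fin.castAdd 4)
/-- Projection to the last four coordinates. -/
def π2 : V 8 →ₗ[ZMod 2] V 4 := LinearMap.funLeft (ZMod 2) (ZMod 2) (Fin.natAdd 4)

theorem eq_zero_of_proj {x : V 8} (h1 : π1 x = 0) (h2 : π2 x = 0) : x = 0 := by
  funext i
  refine Fin.addCases (m := 4) (n := 4) (fun j => ?_) (fun j => ?_) i
  · exact congrFun h1 j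
  · exact congrFun h2 j

theorem mem_M₀_proj : ∀ x ∈ M₀, π1 x = 0 ∨ π2 x = 0 := by decide +kernel

theorem card_le_four_of_indep {I : Finset (V 8)}
    (hi : LinearIndependent (ZMod 2) (fun x : (I : Set (V 8)) => (x : V 8)))
    (g : V 8 →ₗ[ZMod 2] V 4)
    (hdisj : Disjoint (Submodule.span (ZMod 2)
      (Set.range (fun x : (I : Set (V 8)) => (x : V 8)))) (LinearMap.ker g)) : I.card ≤ 4 := by
  have h4 := (hi.map hdisj).fintype_card_le_finrank
  simpa using h4

/-- A circuit inside the kernel of one of the two projections has at most five elements. -/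
theorem card_le_five {C : Finset (V 8)} (hC : IsCircuit C) (f g : V 8 →ₗ[ZMod 2] V 4)
    (hfg : ∀ x, f x = 0 → g x = 0 → x = 0) (hf : ∀ x ∈ C, f x = 0) : C.card ≤ 5 := by
  obtain ⟨⟨y, hy⟩, hE, hmin⟩ := hC
  have hi : LinearIndependent (ZMod 2)
      (fun x : ((C.erase y : Finset (V 8)) : Set (V 8)) => (x : V 8)) := by
    rw [indep_iff]
    intro D hD hs
    by_contra hne
    have hne := Finset.nonempty_iff_ne_empty.mpr hne
    have hDC : D ⊆ C := hD.trans (Finset.erase_subset _ _)
    have := hmin D hDC hne ⟨fun h0 => hE.1 (hDC h0), hs⟩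
    rw [this] at hD
    exact absurd (hD hy) (by simp)
  have hdisj : Disjoint (Submodule.span (ZMod 2)
      (Set.range (fun x : ((C.erase y : Finset (V 8)) : Set (V 8)) => (x : V 8))))
      (LinearMap.ker g) := by
    rw [Submodule.disjoint_def]
    intro x hx hgx
    have hx' : x ∈ LinearMap.ker f := by
      refine Submodule.span_le.2 ?_ hx
      rintro _ ⟨z, rfl⟩
      exact hf _ (Finset.mem_of_mem_erase (Finset.mem_coe.1 z.2))
    exact hfg x hx' hgx
  have h5 : (C.erase y).card ≤ 4 := card_le_four_of_indep hi g hdisj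
  rw [Finset.card_erase_of_mem hy] at h5
  omega

theorem circuit_in_M₀ (C : Finset (V 8)) (hC : IsCircuit C) (hsub : C ⊆ M₀) : C.card < 8 := by
  have hC' := hC
  obtain ⟨hne, hE, hmin⟩ := hC'
  have hsplit := Finset.sum_filter_add_sum_filter_not C (fun x => π2 x = 0) (fun x => x)
  rw [hE.2] at hsplit
  have hB1 : π1 (∑ x ∈ C.filter (fun x => ¬ π2 x = 0), x) = 0 := by
    rw [map_sum]
    refine Finset.sum_eq_zero fun x hx => ?_
    rw [Finset.mem_filter] at hx
    rcases mem_M₀_proj x (hsub hx.1) with h | h
    · exact h
    · exact absurd h hx.2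
  have hA2 : π2 (∑ x ∈ C.filter (fun x => π2 x = 0), x) = 0 := by
    rw [map_sum]
    exact Finset.sum_eq_zero fun x hx => (Finset.mem_filter.1 hx).2
  have hB2 : π2 (∑ x ∈ C.filter (fun x => ¬ π2 x = 0), x) = 0 := by
    have := congrArg π2 hsplit
    rw [map_add, hA2, zero_add, map_zero] at this
    exact this
  have hB := eq_zero_of_proj hB1 hB2
  have hA : ∑ x ∈ C.filter (fun x => π2 x = 0), x = 0 := by
    rw [hB, add_zero] at hsplit
    exact hsplit
  rcases (C.filter (fun x => π2 x = 0)).eq_empty_or_nonempty with he | he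
  · have hf : ∀ x ∈ C, π1 x = 0 := by
      intro x hx
      rcases mem_M₀_proj x (hsub hx) with h | h
      · exact h
      · exfalso
        have : x ∈ C.filter (fun x => π2 x = 0) := by simp [hx, h]
        rw [he] at this
        simp at this
    have := card_le_five hC π1 π2 (fun x h1 h2 => eq_zero_of_proj h1 h2) hf
    omega
  · have heq := hmin _ (Finset.filter_subset _ _) he
      ⟨fun h0 => hE.1 (Finset.mem_of_mem_filter _ h0), hA⟩
    have hf : ∀ x ∈ C, π2 x = 0 := by
      intro x hx
      rw [← heq] at hx
      exact (Finset.mem_filter.1 hx).2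
    have := card_le_five hC π2 π1 (fun x h1 h2 => eq_zero_of_proj h2 h1) hf
    omega

/-- The circuit odd-cover of `M₀` by four circuits. -/
theorem exists_cover : ∃ L : List (Finset (V 8)), L.length = 4 ∧ IsCircuitOddCover M₀ L := by
  have s1 : ∑ x ∈ B1, x = vec 255 := by decide +kernel
  have s2 : ∑ x ∈ B2, x = vec 136 := by decide +kernel
  have s3 : ∑ x ∈ B3, x = vec 119 := by decide +kernel
  have hc1 : IsCircuit (insert (∑ x ∈ B1, x) B1) :=
    isCircuit_insert indep_B1 ⟨vec 4, by decide +kernel⟩ (by rw [s1]; decide +kernel)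
  have hc2 : IsCircuit (insert (∑ x ∈ B2, x) B2) :=
    isCircuit_insert indep_B2 ⟨vec 7, by decide +kernel⟩ (by rw [s2]; decide +kernel)
  have hc3 : IsCircuit (insert (∑ x ∈ B3, x) B3) :=
    isCircuit_insert indep_B3 ⟨vec 11, by decide +kernel⟩ (by rw [s3]; decide +kernel)
  have hT : LinearIndependent (ZMod 2)
      (fun x : (({vec 255, vec 136} : Finset (V 8)) : Set (V 8)) => (x : V 8)) :=
    indep_pair (by decide +kernel) (by decide +kernel) (by decide +kernel)
  have s4 : ∑ x ∈ ({vec 255, vec 136} : Finset (V 8)), x = vec 119 := by decide +kernel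
  have hc4 : IsCircuit (insert (∑ x ∈ ({vec 255, vec 136} : Finset (V 8)), x)
      ({vec 255, vec 136} : Finset (V 8))) :=
    isCircuit_insert hT ⟨vec 255, by decide +kernel⟩ (by rw [s4]; decide +kernel)
  rw [s1] at hc1
  rw [s2] at hc2
  rw [s3] at hc3
  rw [s4] at hc4
  refine ⟨[insert (vec 255) B1, insert (vec 136) B2, insert (vec 119) B3,
    insert (vec 119) {vec 255, vec 136}], rfl, ?_, ?_⟩
  · intro C hC
    simp only [List.mem_cons, List.not_mem_nil, or_false] at hC
    rcases hC with h | h | h | h <;> rw [h] <;> assumption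
  · decide +kernel

theorem c2_M₀ : c2 M₀ = 4 := by
  obtain ⟨L, hL, hcov⟩ := exists_cover
  apply le_antisymm
  · exact Nat.sInf_le ⟨L, hL, hcov⟩
  · refine le_csInf ⟨4, L, hL, hcov⟩ ?_
    rintro t ⟨L', hL', hcov'⟩
    have := lt_length_of_isCircuitOddCover (a := 3) (by decide) (by norm_num) card_M₀
      circuit_in_M₀ hcov'
    omega

theorem arboricity_M₀ : arboricity M₀ = 3 := by
  have h3 : (3 : ℕ) ∈ {t : ℕ | ∃ I : Fin t → Finset (V 8),
      (∀ j, LinearIndependent (ZMod 2) (fun x : (I j : Set (V 8)) => (x : V 8))) ∧
        Finset.univ.biUnion I = M₀} := by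
    refine ⟨![B1, B2, B3], ?_, ?_⟩
    · intro j
      fin_cases j
      · exact indep_B1
      · exact indep_B2
      · exact indep_B3
    · decide +kernel
  apply le_antisymm
  · exact Nat.sInf_le h3
  · refine le_csInf ⟨3, h3⟩ ?_
    rintro t ⟨I, hI, hU⟩
    have h1 : (Finset.univ.biUnion I).card ≤ ∑ j : Fin t, (I j).card := Finset.card_biUnion_le
    have h2 : ∑ j : Fin t, (I j).card ≤ ∑ _j : Fin t, 8 :=
      Finset.sum_le_sum fun j _ => card_le_of_indep (hI j)
    rw [hU, card_M₀] at h1
    simp only [Finset.sum_const, Finset.card_univ, Fintype.card_fin, smul_eq_mul] at h2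
    omega

/-- **Disproof of Q1.**  There is an Eulerian binary matroid `M ⊆ F_2^8 \ {0}` with arboricity
`a(M) = 3` and `c_2(M) = 4`; so `c_2(M) ≤ a(M)` fails, and the known upper bound
`c_2(M) ≤ (4/3) a(M)` is attained. -/
theorem result : ∃ M : Finset (V 8), IsEulerian M ∧ arboricity M = 3 ∧ c2 M = 4 :=
  ⟨M₀, isEulerian_M₀, arboricity_M₀, c2_M₀⟩

end Pool.Agent.Results.MP_a03d73_co.Main
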