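import Pool.Agent.Results.MP_a03d73_co.Main

/-!
# MP_a03d73_co : the inequality `c_2(M) ≤ a(M)` holds when `M` does not span the ambient space

The definitions are those of `Main`.  Split `M` into `a(M)` independent sets `I_1, ..., I_a` with
sums `s_1, ..., s_a`, take a vector `x` outside the span of `M` and use the circuits
`I_j ∪ {x + s_1 + ... + s_(j-1), x + s_1 + ... + s_j}`.
-/

namespace Pool.Agent.Results.MP_a03d73_co.NonSpanning

open Finset Pool.Agent.Results.MP_a03d73_co.Main
open scoped symmDiff

variable {n : ℕ}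

/-! ### Matroids that do not span the ambient space -/

/-- A union of `t` independent sets is a symmetric difference of at most `t` nonempty independent
sets (made disjoint), with the same sum. -/
theorem exists_disjointed : ∀ (t : ℕ) (I : Fin t → Finset (V n)),
    (∀ j, LinearIndependent (ZMod 2) (fun x : (I j : Set (V n)) => (x : V n))) →
    ∃ L : List (Finset (V n)), L.length ≤ t ∧
      (∀ A ∈ L, LinearIndependent (ZMod 2) (fun x : (A : Set (V n)) => (x : V n)) ∧
        A.Nonempty ∧ A ⊆ Finset.univ.biUnion I) ∧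
      L.foldr (fun A B => A ∆ B) ∅ = Finset.univ.biUnion I ∧
      (L.map (fun A => ∑ x ∈ A, x)).sum = ∑ x ∈ Finset.univ.biUnion I, x := by
  intro t
  induction t with
  | zero =>
    intro I _
    exact ⟨[], by simp, by simp, by simp, by simp⟩
  | succ t ih =>
    intro I hI
    obtain ⟨L, hlen, hL, hfold, hsum⟩ := ih (fun j => I j.succ) (fun j => hI _)
    have hU : Finset.univ.biUnion I = I 0 ∪ Finset.univ.biUnion (fun j => I (Fin.succ j)) := by
      ext x
      simp only [Finset.mem_biUnion, Finset.mem_univ, true_and, Finset.mem_union]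
      rw [Fin.exists_fin_succ]
    set U := Finset.univ.biUnion (fun j => I (Fin.succ j)) with hUdef
    have hsplit : I 0 ∪ U = (I 0 \ U) ∪ U := by simp
    have hdis : Disjoint (I 0 \ U) U := Finset.sdiff_disjoint
    by_cases he : (I 0 \ U).Nonempty
    · refine ⟨(I 0 \ U) :: L, ?_, ?_, ?_, ?_⟩
      · simp only [List.length_cons]; omega
      · intro A hA
        rcases List.mem_cons.1 hA with h | h
        · rw [h]
          refine ⟨?_, he, ?_⟩
          · rw [indep_iff]
            intro D hD
            exact (indep_iff _).1 (hI 0) D (hD.trans Finset.sdiff_subset)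
          · rw [hU]
            exact Finset.sdiff_subset.trans Finset.subset_union_left
        · obtain ⟨h1, h2, h3⟩ := hL A h
          exact ⟨h1, h2, h3.trans (by rw [hU]; exact Finset.subset_union_right)⟩
      · rw [List.foldr_cons, hfold, hU, hsplit]
        exact hdis.symmDiff_eq_sup
      · rw [List.map_cons, List.sum_cons, hsum, hU, hsplit, Finset.sum_union hdis]
    · rw [Finset.not_nonempty_iff_eq_empty] at he
      have hU' : Finset.univ.biUnion I = U := by rw [hU, hsplit, he, Finset.empty_union]
      refine ⟨L, by omega, ?_, ?_, ?_⟩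
      · rw [hU']; exact hL
      · rw [hU']; exact hfold
      · rw [hU']; exact hsum

/-- Chaining circuits through vectors outside the proper subspace `W`. -/
theorem exists_chain (W : Submodule (ZMod 2) (V n)) : ∀ (L : List (Finset (V n))),
    (∀ A ∈ L, LinearIndependent (ZMod 2) (fun x : (A : Set (V n)) => (x : V n)) ∧
        A.Nonempty ∧ ∀ y ∈ A, y ∈ W) →
    ∀ x : V n, x ∉ W →
      ∃ L' : List (Finset (V n)), L'.length = L.length ∧ (∀ C ∈ L', IsCircuit C) ∧
        L'.foldr (fun A B => A ∆ B) ∅ =
          (L.foldr (fun A B => A ∆ B) ∅) ∆ ({x} ∆ {x + (L.map (fun A => ∑ x ∈ A, x)).sum}) := by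
  intro L
  induction L with
  | nil =>
    intro _ x _
    exact ⟨[], rfl, by simp, by simp⟩
  | cons I L ih =>
    intro hL x hx
    obtain ⟨hI, hIne, hIW⟩ := hL I (by simp)
    have hsW : ∑ y ∈ I, y ∈ W := Submodule.sum_mem _ hIW
    have hs0 : ∑ y ∈ I, y ≠ 0 := fun h0 => hIne.ne_empty ((indep_iff I).1 hI I subset_rfl h0)
    have hx' : x + ∑ y ∈ I, y ∉ W := fun h => hx ((W.add_mem_iff_left hsW).1 h)
    have hxI : x ∉ I := fun h => hx (hIW x h)
    have hx'I : x + ∑ y ∈ I, y ∉ I := fun h => hx' (hIW _ h)
    have hne : x + ∑ y ∈ I, y ≠ x := fun h => hs0 (by simpa using h)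
    obtain ⟨L', hlen, hcirc, hfold⟩ := ih (fun A hA => hL A (by simp [hA])) _ hx'
    have hind : LinearIndependent (ZMod 2)
        (fun z : ((insert x I : Finset (V n)) : Set (V n)) => (z : V n)) := by
      rw [indep_iff]
      intro D hD hs
      by_cases hxD : x ∈ D
      · exfalso
        rw [← Finset.add_sum_erase _ _ hxD] at hs
        have hmem : ∑ y ∈ D.erase x, y ∈ W := by
          refine Submodule.sum_mem _ fun y hy => ?_
          rw [Finset.mem_erase] at hy
          rcases Finset.mem_insert.1 (hD hy.2) with h | h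
          · exact absurd h hy.1
          · exact hIW y h
        have : x + ∑ y ∈ D.erase x, y ∈ W := by rw [hs]; exact W.zero_mem
        exact hx ((W.add_mem_iff_left hmem).1 this)
      · refine (indep_iff I).1 hI D ?_ hs
        intro y hy
        rcases Finset.mem_insert.1 (hD hy) with h | h
        · exact absurd (h ▸ hy) hxD
        · exact h
    have hsum : ∑ y ∈ insert x I, y = x + ∑ y ∈ I, y := Finset.sum_insert hxI
    have hC : IsCircuit (insert (x + ∑ y ∈ I, y) (insert x I)) := by
      have := isCircuit_insert hind ⟨x, Finset.mem_insert_self _ _⟩ (by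
        rw [hsum, Finset.mem_insert, not_or]
        exact ⟨hne, hx'I⟩)
      rwa [hsum] at this
    refine ⟨insert (x + ∑ y ∈ I, y) (insert x I) :: L', ?_, ?_, ?_⟩
    · simp [hlen]
    · intro C hCm
      rcases List.mem_cons.1 hCm with h | h
      · rw [h]; exact hC
      · exact hcirc C h
    · rw [List.foldr_cons, hfold, List.foldr_cons, List.map_cons, List.sum_cons, ← add_assoc]
      generalize L.foldr (fun A B => A ∆ B) ∅ = F
      generalize (x + ∑ y ∈ I, y) + (L.map (fun A => ∑ x ∈ A, x)).sum = w
      have e1 : insert (x + ∑ y ∈ I, y) (insert x I) = I ∆ ({x} ∆ {x + ∑ y ∈ I, y}) := by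
        ext z
        simp only [Finset.mem_insert, Finset.mem_symmDiff, Finset.mem_singleton]
        constructor
        · rintro (h | h | h)
          · subst h; right
            exact ⟨Or.inr ⟨rfl, hne⟩, hx'I⟩
          · subst h; right
            exact ⟨Or.inl ⟨rfl, fun h => hne h.symm⟩, hxI⟩
          · left
            refine ⟨h, ?_⟩
            rintro (h1 | h1)
            · exact hxI (h1.1 ▸ h)
            · exact hx'I (h1.1 ▸ h)
        · tauto
      rw [e1]
      generalize ({x + ∑ y ∈ I, y} : Finset (V n)) = Q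
      generalize ({x} : Finset (V n)) = P
      generalize ({w} : Finset (V n)) = R
      have : (I ∆ (P ∆ Q)) ∆ (F ∆ (Q ∆ R)) = (I ∆ F) ∆ ((P ∆ R) ∆ (Q ∆ Q)) := by
        simp only [symmDiff_comm, symmDiff_left_comm]
      rw [this, symmDiff_self, symmDiff_bot]

/-- If the Eulerian binary matroid `M ⊆ F_2^n` does not span `F_2^n`, then `c_2(M) ≤ a(M)`. -/
theorem c2_le_arboricity_of_span_ne_top {M : Finset (V n)} (hM : IsEulerian M)
    (hspan : Submodule.span (ZMod 2) (M : Set (V n)) ≠ ⊤) : c2 M ≤ arboricity M := by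
  have hne : {t : ℕ | ∃ I : Fin t → Finset (V n),
      (∀ j, LinearIndependent (ZMod 2) (fun x : (I j : Set (V n)) => (x : V n))) ∧
        Finset.univ.biUnion I = M}.Nonempty := by
    refine ⟨M.card, fun j => {((M.equivFin.symm j : M) : V n)}, fun j => ?_, ?_⟩
    · rw [indep_iff]
      intro D hD hs
      rcases Finset.subset_singleton_iff.1 hD with h | h
      · exact h
      · rw [h, Finset.sum_singleton] at hs
        exact absurd (hs ▸ (M.equivFin.symm j).2) hM.1
    · ext x
      simp only [Finset.mem_biUnion, Finset.mem_univ, true_and, Finset.mem_singleton]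
      constructor
      · rintro ⟨j, rfl⟩
        exact (M.equivFin.symm j).2
      · intro hx
        exact ⟨M.equivFin ⟨x, hx⟩, by simp⟩
  obtain ⟨I, hI, hU⟩ := Nat.sInf_mem hne
  obtain ⟨L, hlen, hL, hfold, hsum⟩ := exists_disjointed _ I hI
  obtain ⟨x, hx⟩ : ∃ x : V n, x ∉ Submodule.span (ZMod 2) (M : Set (V n)) := by
    by_contra hcon
    push Not at hcon
    exact hspan (Submodule.eq_top_iff'.2 hcon)
  obtain ⟨L', hlen', hcirc, hfold'⟩ := exists_chain (Submodule.span (ZMod 2) (M : Set (V n))) L
    (fun A hA => ⟨(hL A hA).1, (hL A hA).2.1, fun y hy => Submodule.subset_span (by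
      have := (hL A hA).2.2 hy
      rw [hU] at this
      exact this)⟩) x hx
  rw [hsum, hU, hM.2, add_zero, symmDiff_self, hfold, hU, symmDiff_bot] at hfold'
  refine le_trans (Nat.sInf_le ⟨L', rfl, hcirc, hfold'⟩) ?_
  rw [hlen']
  exact hlen

/-- If the Eulerian binary matroid `M ⊆ F_2^n \ {0}` does not span `F_2^n`, then
`c_2(M) ≤ a(M)`. -/
theorem result (n : ℕ) (M : Finset (V n)) (hM : IsEulerian M)
    (hspan : Submodule.span (ZMod 2) (M : Set (V n)) ≠ ⊤) : c2 M ≤ arboricity M :=
  c2_le_arboricity_of_span_ne_top hM hspan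

end Pool.Agent.Results.MP_a03d73_co.NonSpanning
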